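import Mathlib

set_option autoImplicit false

namespace Pool.Agent.Results.MP_aba9fe_co.Inter
open Finset

/-- finite loopless multigraph with at least one vertex -/
structure MG where
  V : Type
  E : Type
  [fV : Fintype V]
  [fE : Fintype E]
  [ne : Nonempty V]
  ends : E → Sym2 V
  loopless : ∀ e, ¬ (ends e).IsDiag

attribute [instance] MG.fV MG.fE MG.ne

/-- a path of order `r + 1`: distinct vertices `v`, edges `e` -/
def IsPath (G : MG) (r : ℕ) (v : Fin (r + 1) → G.V) (e : Fin r → G.E) : Prop :=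
  Function.Injective v ∧ ∀ i : Fin r, G.ends (e i) = s(v i.castSucc, v i.succ)

/-- a unique shortest path of order `r + 1` -/
def IsUSP (G : MG) (r : ℕ) (v : Fin (r + 1) → G.V) (e : Fin r → G.E) : Prop :=
  IsPath G r v e ∧
  (∀ r' v' e', IsPath G r' v' e' → v' 0 = v 0 → v' (Fin.last r') = v (Fin.last r) → r ≤ r') ∧
  (∀ v' e', IsPath G r v' e' → v' 0 = v 0 → v' (Fin.last r) = v (Fin.last r) → e' = e)

/-- parade number -/
noncomputable def usp (G : MG) : ℕ := sSup {k | ∃ r v e, IsUSP G r v e ∧ k = r + 1}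

/-- spectator number -/
noncomputable def sp (G : MG) : ℕ := Fintype.card G.V - usp G

/-- `G` arises from `H` (up to isomorphism) by deleting an isolated vertex, deleting an edge, or
contracting an edge that has no parallel edge -/
def Step (H G : MG) : Prop :=
  (∃ (x : H.V) (f : G.V → H.V) (g : G.E ≃ H.E), (∀ e, x ∉ H.ends e) ∧ Function.Injective f ∧
    Set.range f = {x}ᶜ ∧ ∀ e, H.ends (g e) = (G.ends e).map f) ∨
  (∃ (e0 : H.E) (f : G.V ≃ H.V) (g : G.E → H.E), Function.Injective g ∧ Set.range g = {e0}ᶜ ∧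
    ∀ e, H.ends (g e) = (G.ends e).map f) ∨
  (∃ (e0 : H.E) (f : H.V → G.V) (g : G.E → H.E), (∀ e, H.ends e = H.ends e0 → e = e0) ∧
    Function.Surjective f ∧ (∀ x y, f x = f y ↔ x = y ∨ s(x, y) = H.ends e0) ∧
    Function.Injective g ∧ Set.range g = {e0}ᶜ ∧ ∀ e, G.ends e = (H.ends (g e)).map f)

/-- `G` is a minor of `H` -/
def Minor (G H : MG) : Prop := Relation.ReflTransGen Step H G

/-- spectator floor -/
noncomputable def sf (G : MG) : ℕ := sInf {s | ∃ H, Minor G H ∧ sp H = s}

/-- the supergraph of `G` on the same vertices with extra edges `E'` -/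
def addEdges (G : MG) (E' : Type) [Fintype E'] (ends' : E' → Sym2 G.V)
    (h : ∀ e, ¬ (ends' e).IsDiag) : MG where
  V := G.V
  E := G.E ⊕ E'
  ends := Sum.elim G.ends ends'
  loopless := by
    rintro (e | e)
    exacts [G.loopless e, h e]

/-- potential certificate -/
def Pot (G : MG) (ψ : G.V → ℤ) : Prop :=
  (∀ e x y, G.ends e = s(x, y) → ψ x - ψ y ≤ 2) ∧ (∀ x y, ψ x % 2 = 1 → ψ x = ψ y → x = y) ∧
  (∀ e f x y, G.ends e = s(x, y) → G.ends f = s(x, y) → ψ x % 2 = 1 → ψ y % 2 = 1 → e = f)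

def Good (G : MG) (s : ℕ) : Prop :=
  ∃ ψ, Pot G ψ ∧ (univ.filter fun x => ψ x % 2 = 0).card ≤ s

theorem pull (H G : MG) (s : ℕ) (f : G.V → H.V) (g : G.E → H.E) (hf : Function.Injective f)
    (hg : Function.Injective g) (h : ∀ e, H.ends (g e) = (G.ends e).map f) (hH : Good H s) :
    Good G s := by
  obtain ⟨ψ, ⟨h1, h2, h3⟩, h4⟩ := hH
  refine ⟨ψ ∘ f, ⟨fun e x y he => h1 (g e) _ _ (by rw [h, he]; rfl),
    fun x y a b => hf (h2 _ _ a b), fun e e' x y a b c d =>
      hg (h3 _ _ (f x) (f y) (by rw [h, a]; rfl) (by rw [h, b]; rfl) c d)⟩, le_trans ?_ h4⟩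
  exact card_le_card_of_injOn f (fun x hx => by simpa using hx) hf.injOn

theorem contr (H G : MG) (u v : H.V) (f : H.V → G.V) (g : G.E → H.E)
    (hf : Function.Surjective f) (hk : ∀ x y, f x = f y ↔ x = y ∨ s(x, y) = s(u, v))
    (hg : Function.Injective g) (h : ∀ e, G.ends e = (H.ends (g e)).map f)
    (ψ : H.V → ℤ) (hψ : Pot H ψ) (huv : ψ u ≤ ψ v) (huv' : ψ v - ψ u ≤ 2) (c : ℤ → ℤ)
    (c1 : ∀ s t, s - t ≤ 2 → t - s ≤ 2 → c s - c t ≤ 2) (c2 : c (ψ u) = c (ψ v))
    (c3 : ∀ s, c s % 2 = 1 → s % 2 = 1)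
    (c4 : ∀ s t, c s % 2 = 1 → c s = c t → s = t ∨ (s = ψ u ∧ t = ψ v) ∨ (s = ψ v ∧ t = ψ u)) :
    ∃ φ, Pot G φ ∧ ∀ x, φ (f x) = c (ψ x) := by
  obtain ⟨h1, h2, h3⟩ := hψ
  have wd : ∀ x y, f x = f y → c (ψ x) = c (ψ y) := by
    intro x y a
    rcases (hk x y).1 a with rfl | b
    · rfl
    · rcases Sym2.eq_iff.1 b with ⟨rfl, rfl⟩ | ⟨rfl, rfl⟩
      exacts [c2, c2.symm]
  have hφ : ∀ x, c (ψ (Function.surjInv hf (f x))) = c (ψ x) :=
    fun x => wd _ _ (Function.surjInv_eq hf _)
  have lift : ∀ e x y, G.ends e = s(x, y) → ∃ a b, H.ends (g e) = s(a, b) ∧ f a = x ∧ f b = y := by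
    intro e x y he
    rw [h] at he
    generalize H.ends (g e) = z at he
    induction z using Sym2.ind with
    | h a b =>
      rcases Sym2.eq_iff.1 he with ⟨p, q⟩ | ⟨p, q⟩
      exacts [⟨a, b, rfl, p, q⟩, ⟨b, a, Sym2.eq_swap, q, p⟩]
  refine ⟨fun y => c (ψ (Function.surjInv hf y)), ⟨?_, ?_, ?_⟩, hφ⟩
  · intro e x y he
    obtain ⟨a, b, p, rfl, rfl⟩ := lift e x y he
    simp only [hφ]
    exact c1 _ _ (h1 _ _ _ p) (h1 _ _ _ (p.trans Sym2.eq_swap))
  · intro x y a b
    obtain ⟨x, rfl⟩ := hf x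
    obtain ⟨y, rfl⟩ := hf y
    simp only [hφ] at a b
    have a1 := c3 _ a
    have a2 := c3 _ (b ▸ a)
    rcases c4 _ _ a b with p | ⟨p, q⟩ | ⟨p, q⟩
    · rw [h2 _ _ a1 p]
    · rw [h2 _ _ a1 p, h2 _ _ a2 q]; exact (hk _ _).2 (Or.inr rfl)
    · rw [h2 _ _ a1 p, h2 _ _ a2 q]; exact (hk _ _).2 (Or.inr Sym2.eq_swap)
  · intro e e' x y p0 q0 ox oy
    have hxy : x ≠ y := fun a => G.loopless e (by rw [p0, a]; simp)
    obtain ⟨a, b, p, rfl, rfl⟩ := lift e x y p0
    obtain ⟨a', b', q, qa, qb⟩ := lift e' _ _ q0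
    have oa' : c (ψ a') % 2 = 1 := by rw [wd _ _ qa, ← hφ]; exact ox
    have ob' : c (ψ b') % 2 = 1 := by rw [wd _ _ qb, ← hφ]; exact oy
    simp only [hφ] at ox oy
    have o1 := c3 _ ox
    have o2 := c3 _ oy
    have o3 := c3 _ oa'
    have o4 := c3 _ ob'
    have key : ∀ (a b a' b' : H.V) (e e' : H.E), H.ends e = s(a, b) → H.ends e' = s(a', b') →
        f a' = f a → f b' = f b → f a ≠ f b → ψ a % 2 = 1 → ψ b % 2 = 1 → ψ a' % 2 = 1 →
        a' = a := by
      intro a b a' b' e e' p q qa qb hne o1 o2 o3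
      rcases (hk _ _).1 qa with r | r
      · exact r
      · have fuv : f u = f v := (hk _ _).2 (Or.inr rfl)
        have fa : f a = f u := by
          rcases Sym2.eq_iff.1 r with ⟨-, rfl⟩ | ⟨-, rfl⟩
          exacts [fuv.symm, rfl]
        have hb : b' = b := by
          rcases (hk _ _).1 qb with r' | r'
          · exact r'
          · exfalso
            apply hne
            rcases Sym2.eq_iff.1 r' with ⟨-, rfl⟩ | ⟨-, rfl⟩
            exacts [fa.trans fuv, fa]
        subst hb
        have n1 : ψ a ≠ ψ b' := fun z => hne (by rw [h2 _ _ o1 z])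
        have n2 : ψ a' ≠ ψ b' := fun z => hne (by rw [← qa, h2 _ _ o3 z])
        have b1 := h1 _ _ _ p
        have b2 := h1 _ _ _ (p.trans Sym2.eq_swap)
        have b3 := h1 _ _ _ q
        have b4 := h1 _ _ _ (q.trans Sym2.eq_swap)
        apply h2 _ _ o3
        rcases Sym2.eq_iff.1 r with ⟨rfl, rfl⟩ | ⟨rfl, rfl⟩ <;> omega
    have ea := key a b a' b' _ _ p q qa qb hxy o1 o2 o3
    have eb := key b a b' a' _ _ (p.trans Sym2.eq_swap) (q.trans Sym2.eq_swap) qb qa hxy.symm
      o2 o1 o4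
    subst ea eb
    exact hg (h3 _ _ _ _ p q o1 o2)

theorem step_good (H G : MG) (s : ℕ) (h : Step H G) (hH : Good H s) : Good G s := by
  classical
  rcases h with ⟨x, f, g, -, h1, -, h2⟩ | ⟨e0, f, g, h1, -, h2⟩ | ⟨e0, f, g, -, hf, hk, hg, -, h⟩
  · exact pull H G s f g h1 g.injective h2 hH
  · exact pull H G s f g f.injective h1 h2 hH
  obtain ⟨ψ, hψ, hs⟩ := hH
  obtain ⟨u, v, he, huv⟩ : ∃ u v, H.ends e0 = s(u, v) ∧ ψ u ≤ ψ v := by
    generalize H.ends e0 = z
    induction z using Sym2.ind with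
    | h a b =>
      rcases le_total (ψ a) (ψ b) with p | p
      exacts [⟨a, b, rfl, p⟩, ⟨b, a, Sym2.eq_swap, p⟩]
  have hne : u ≠ v := fun a => H.loopless e0 (by rw [he, a]; simp)
  have huv' := hψ.1 _ _ _ (he.trans Sym2.eq_swap)
  rw [he] at hk
  have fuv : f u = f v := (hk _ _).2 (Or.inr rfl)
  have cnt : ∀ (φ : G.V → ℤ) (A : Finset H.V), (∀ x, φ (f x) % 2 = 0 → ∃ y ∈ A, f y = f x) →
      A.card ≤ s → (univ.filter fun x => φ x % 2 = 0).card ≤ s := by
    intro φ A h1 h2
    refine le_trans (card_le_card ?_) (card_image_le.trans h2 : (A.image f).card ≤ s)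
    intro y hy
    obtain ⟨x, rfl⟩ := hf y
    exact mem_image.2 (h1 x (mem_filter.1 hy).2)
  by_cases c0 : ψ u = ψ v
  · obtain ⟨φ, p, q⟩ := contr H G u v f g hf hk hg h ψ hψ huv huv' id (fun s t a _ => a) c0
      (fun s a => a) (fun s t _ a => Or.inl a)
    exact ⟨φ, p, cnt φ _ (fun x a => ⟨x, mem_filter.2 ⟨mem_univ _, by rwa [q] at a⟩, rfl⟩) hs⟩
  by_cases c1 : ψ u % 2 = 1 ∧ ψ v % 2 = 1
  · obtain ⟨φ, p, q⟩ := contr H G u v f g hf hk hg h ψ hψ huv huv'
      (fun t => if t < ψ v then t else t - 2) (fun s t a b => by split_ifs <;> omega)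
      (by split_ifs <;> omega) (fun s a => by split_ifs at a <;> omega)
      (fun s t a b => by split_ifs at a b <;> omega)
    refine ⟨φ, p, cnt φ _ (fun x a => ⟨x, mem_filter.2 ⟨mem_univ _, ?_⟩, rfl⟩) hs⟩
    rw [q] at a
    split_ifs at a <;> omega
  · set j := ψ u / 2 * 2 with hj
    obtain ⟨φ, p, q⟩ := contr H G u v f g hf hk hg h ψ hψ huv huv'
      (fun t => if t ≤ j then t else if t = j + 1 then j else t - 2)
      (fun s t a b => by split_ifs <;> omega)
      (by split_ifs <;> omega) (fun s a => by split_ifs at a <;> omega)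
      (fun s t a b => by split_ifs at a b <;> omega)
    have q' : ∀ x, φ (f x) % 2 = 0 → ψ x % 2 = 0 ∨ ψ x = j + 1 := by
      intro x a
      rw [q] at a
      split_ifs at a <;> omega
    refine ⟨φ, p, ?_⟩
    by_cases d1 : ψ u = j + 1
    · refine cnt φ _ (fun x a => ?_) hs
      rcases q' x a with b | b
      · exact ⟨x, mem_filter.2 ⟨mem_univ _, b⟩, rfl⟩
      · refine ⟨v, mem_filter.2 ⟨mem_univ _, by omega⟩, ?_⟩
        rw [← fuv, hψ.2.1 u x (by omega) (by omega)]
    by_cases d2 : ψ v = j + 1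
    · refine cnt φ _ (fun x a => ?_) hs
      rcases q' x a with b | b
      · exact ⟨x, mem_filter.2 ⟨mem_univ _, b⟩, rfl⟩
      · refine ⟨u, mem_filter.2 ⟨mem_univ _, by omega⟩, ?_⟩
        rw [fuv, hψ.2.1 v x (by omega) (by omega)]
    refine cnt φ (((univ.filter fun x => ψ x % 2 = 0).erase v) ∪ univ.filter fun x => ψ x = j + 1)
      (fun x a => ?_) ?_
    · rcases q' x a with b | b
      · by_cases hx : x = v
        · exact ⟨u, mem_union_left _ (mem_erase.2 ⟨hne, mem_filter.2 ⟨mem_univ _, by omega⟩⟩),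
            by rw [hx, fuv]⟩
        · exact ⟨x, mem_union_left _ (mem_erase.2 ⟨hx, mem_filter.2 ⟨mem_univ _, b⟩⟩), rfl⟩
      · exact ⟨x, mem_union_right _ (mem_filter.2 ⟨mem_univ _, b⟩), rfl⟩
    · have a1 : (univ.filter fun x => ψ x = j + 1).card ≤ 1 := by
        refine card_le_one.2 fun a ha b hb => ?_
        have := (mem_filter.1 ha).2
        have := (mem_filter.1 hb).2
        exact hψ.2.1 a b (by omega) (by omega)
      have a2 := card_erase_lt_of_mem (s := univ.filter fun x => ψ x % 2 = 0) (a := v)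
        (mem_filter.2 ⟨mem_univ _, by omega⟩)
      have a3 := card_union_le ((univ.filter fun x => ψ x % 2 = 0).erase v)
        (univ.filter fun x => ψ x = j + 1)
      omega

theorem minor_good (G H : MG) (s : ℕ) (h : Minor G H) (hH : Good H s) : Good G s := by
  induction h with
  | refl => exact hH
  | tail _ h ih => exact step_good _ _ s h ih

theorem path_le (G : MG) (r : ℕ) (v : Fin (r + 1) → G.V) (h : Function.Injective v) :
    r + 1 ≤ Fintype.card G.V := by
  simpa using Fintype.card_le_of_injective v h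

theorem usp_bdd (G : MG) : BddAbove {k | ∃ r v e, IsUSP G r v e ∧ k = r + 1} :=
  ⟨Fintype.card G.V, by
    rintro k ⟨r, v, e, h, rfl⟩
    exact path_le G r v h.1.1⟩

theorem usp_mem (G : MG) : ∃ r v e, IsUSP G r v e ∧ usp G = r + 1 := by
  refine Nat.sSup_mem (s := {k | ∃ r v e, IsUSP G r v e ∧ k = r + 1}) ?_ (usp_bdd G)
  obtain ⟨x⟩ := G.ne
  exact ⟨1, 0, fun _ => x, Fin.elim0, ⟨⟨fun a b _ => Subsingleton.elim (α := Fin 1) a b,
    fun i => i.elim0⟩, fun _ _ _ _ _ _ => Nat.zero_le _, fun _ _ _ _ _ => funext fun i => i.elim0⟩,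
    rfl⟩

/-- underlying simple graph -/
def sg (G : MG) : SimpleGraph G.V where
  Adj x y := ∃ e, G.ends e = s(x, y)
  symm := ⟨fun _ _ ⟨e, h⟩ => ⟨e, h.trans Sym2.eq_swap⟩⟩
  loopless := ⟨fun x ⟨e, h⟩ => G.loopless e (by rw [h]; simp)⟩

theorem of_walk (G : MG) {x y : G.V} (p : (sg G).Walk x y) (hp : p.IsPath) (r : ℕ)
    (hr : p.length = r) : ∃ v e, IsPath G r v e ∧ v 0 = x ∧ v (Fin.last r) = y ∧
      ∀ z ∈ p.support, ∃ i, v i = z := by
  subst hr
  have h : ∀ i : Fin p.length, ∃ e, G.ends e = s(p.getVert i, p.getVert (i + 1)) :=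
    fun i => p.adj_getVert_succ i.2
  choose e he using h
  refine ⟨fun i => p.getVert i, e, ⟨fun i j a => Fin.ext (hp.getVert_injOn ?_ ?_ a), he⟩,
    by simp, by simp, fun z hz => ?_⟩
  · exact Nat.le_of_lt_succ i.2
  · exact Nat.le_of_lt_succ j.2
  · obtain ⟨i, h1, h2⟩ := SimpleGraph.Walk.mem_support_iff_exists_getVert.1 hz
    exact ⟨⟨i, Nat.lt_succ_of_le h2⟩, h1⟩

theorem seg (G : MG) (r : ℕ) (v : Fin (r + 1) → G.V) (e : Fin r → G.E) (h : IsPath G r v e)
    (i : ℕ) (d : ℕ) (hd : i + d < r + 1) :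
    ∃ p : (sg G).Walk (v ⟨i, by omega⟩) (v ⟨i + d, hd⟩), p.length = d := by
  induction d with
  | zero => exact ⟨.nil, rfl⟩
  | succ d ih =>
    obtain ⟨p, hp⟩ := ih (by omega)
    exact ⟨p.concat ⟨e ⟨i + d, by omega⟩, h.2 _⟩, by simp [hp]⟩

theorem same (G : MG) (r : ℕ) (v v' : Fin (r + 1) → G.V) (e : Fin r → G.E) (h : IsPath G r v e)
    (h' : IsPath G r v' e) (h0 : v' 0 = v 0) : v' = v := by
  funext i
  induction i using Fin.induction with
  | zero => exact h0
  | succ i ih =>
    have := (h'.2 i).symm.trans (h.2 i)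
    rw [ih] at this
    exact Sym2.congr_right.1 this

theorem usp_good (G : MG) : Good G (sp G) := by
  classical
  obtain ⟨r, v, e, ⟨h1, h2, h3⟩, hr⟩ := usp_mem G
  have short : ∀ p : (sg G).Walk (v 0) (v (Fin.last r)), p.length ≤ r →
      p.length = r ∧ ∀ z ∈ p.support, ∃ i, v i = z := by
    intro p hp
    obtain ⟨q, hq⟩ := p.reachable.exists_walk_length_eq_dist
    obtain ⟨v', e', a, b, c, -⟩ := of_walk G q (q.isPath_of_length_eq_dist hq) _ rfl
    have d1 := h2 _ _ _ a b c
    have d2 := SimpleGraph.dist_le p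
    have d3 : p.length = r := by omega
    obtain ⟨v', e', a, b, c, d⟩ := of_walk G p (p.isPath_of_length_eq_dist (by omega)) _ d3
    have := h3 _ _ a b c
    subst this
    rw [same G r v v' _ h1 a b] at d
    exact ⟨d3, d⟩
  have tail : ∀ j : Fin (r + 1), ∃ p : (sg G).Walk (v j) (v (Fin.last r)), p.length = r - j := by
    intro j
    obtain ⟨p, hp⟩ := seg G r v e h1 j (r - j) (by omega)
    exact ⟨p.copy rfl (congrArg v (Fin.ext (by simp; omega))), by simpa using hp⟩
  have head : ∀ j : Fin (r + 1), ∃ p : (sg G).Walk (v 0) (v j), p.length = j := by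
    intro j
    obtain ⟨p, hp⟩ := seg G r v e h1 0 j (by omega)
    exact ⟨p.copy rfl (congrArg v (Fin.ext (by simp))), by simpa using hp⟩
  have dv : ∀ j : Fin (r + 1), (sg G).dist (v 0) (v j) = j := by
    intro j
    obtain ⟨p, hp⟩ := head j
    obtain ⟨q, hq⟩ := p.reachable.exists_walk_length_eq_dist
    obtain ⟨t, ht⟩ := tail j
    have d2 := SimpleGraph.dist_le p
    have := (short (q.append t) (by simp; omega)).1
    simp at this
    omega
  have off : ∀ x (j : Fin (r + 1)), (sg G).Adj x (v j) → (¬ ∃ i, v i = x) →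
      j ≤ (sg G).dist (v 0) x := by
    intro x j a hx
    by_contra hlt
    obtain ⟨p, -⟩ := head j
    obtain ⟨q, hq⟩ := (p.reachable.trans a.symm.reachable).exists_walk_length_eq_dist
    obtain ⟨t, ht⟩ := tail j
    exact hx ((short (q.append (.cons a t)) (by simp; omega)).2 x (by simp))
  refine ⟨fun x => 2 * ((sg G).dist (v 0) x : ℤ) + if ∃ i, v i = x then 1 else 0, ⟨?_, ?_, ?_⟩, ?_⟩
  · intro f x y hf
    have a : (sg G).Adj x y := ⟨f, hf⟩
    have b := a.symm.diff_dist_adj (u := v 0)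
    simp only
    split_ifs with p q q
    · omega
    · obtain ⟨j, rfl⟩ := p
      have := off y j a.symm q
      have := dv j
      omega
    · omega
    · omega
  · intro x y a b
    simp only at a b
    split_ifs at a b with p q
    · obtain ⟨i, rfl⟩ := p
      obtain ⟨j, rfl⟩ := q
      rw [dv, dv] at b
      exact congrArg v (Fin.ext (by omega))
    all_goals omega
  · intro f f' x y a b p q
    simp only at p q
    have px : ∃ i, v i = x := by by_contra z; rw [if_neg z] at p; omega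
    have py : ∃ i, v i = y := by by_contra z; rw [if_neg z] at q; omega
    obtain ⟨i, rfl⟩ := px
    obtain ⟨j, rfl⟩ := py
    have key : ∀ (k : Fin r) (f : G.E), G.ends f = s(v k.castSucc, v k.succ) → f = e k := by
      intro k f hf
      have := h3 v (Function.update e k f) ⟨h1.1, fun l => ?_⟩ rfl rfl
      · simpa using congrFun this k
      · by_cases z : l = k
        · rw [z, Function.update_self, hf]
        · rw [Function.update_of_ne z, h1.2]
    have ad : (sg G).Adj (v i) (v j) := ⟨f, a⟩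
    have c := ad.diff_dist_adj (u := v 0)
    have c' := ad.symm.diff_dist_adj (u := v 0)
    have ne : (i : ℕ) ≠ j := fun z => ad.ne (congrArg v (Fin.ext z))
    rw [dv, dv] at c c'
    rcases lt_or_gt_of_ne ne with z | z
    · have e2 : j = (⟨i, by omega⟩ : Fin r).succ := Fin.ext (by simp; omega)
      rw [e2] at a b
      rw [key ⟨i, by omega⟩ f a, key ⟨i, by omega⟩ f' b]
    · have e2 : i = (⟨j, by omega⟩ : Fin r).succ := Fin.ext (by simp; omega)
      rw [e2, Sym2.eq_swap] at a b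
      rw [key ⟨j, by omega⟩ f a, key ⟨j, by omega⟩ f' b]
  · have a : (univ.filter fun x => (2 * ((sg G).dist (v 0) x : ℤ) +
        if ∃ i, v i = x then 1 else 0) % 2 = 0) = (univ.image v)ᶜ := by
      ext x
      simp only [mem_filter, mem_univ, true_and, mem_compl, mem_image]
      split_ifs with p
      · simp only [p, not_true, iff_false]; omega
      · simp only [p, not_false_iff, iff_true]; omega
    rw [a, card_compl, card_image_of_injective _ h1.1, sp, hr]
    simp

theorem norm (G : MG) (ψ : G.V → ℤ) (h : Pot G ψ) (r : ℕ)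
    (hr : r + 1 ≤ (univ.filter fun x => ψ x % 2 = 1).card) :
    ∃ (φ : G.V → ℤ) (p : Fin (r + 1) → G.V), Pot G φ ∧ (∀ k, φ (p k) = 2 * k + 1) ∧
      ∀ x, φ x % 2 = 1 → ∃ k, p k = x := by
  classical
  obtain ⟨P, hP, hc⟩ := exists_subset_card_eq hr
  have odd : ∀ x ∈ P, ψ x % 2 = 1 := fun x hx => (mem_filter.1 (hP hx)).2
  let a : G.V → ℕ := fun x => (P.filter fun y => ψ y < ψ x).card
  let b : G.V → ℕ := fun x => (P.filter fun y => ψ y ≤ ψ x).card
  have ab : ∀ x, b x = a x + if x ∈ P then 1 else 0 := by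
    intro x
    split_ifs with hx
    · have : (P.filter fun y => ψ y ≤ ψ x) = insert x (P.filter fun y => ψ y < ψ x) := by
        ext y
        simp only [mem_filter, mem_insert]
        constructor
        · rintro ⟨p, q⟩
          rcases q.eq_or_lt with q | q
          exacts [Or.inl (h.2.1 _ _ (odd y p) q), Or.inr ⟨p, q⟩]
        · rintro (rfl | ⟨p, q⟩)
          exacts [⟨hx, le_rfl⟩, ⟨p, q.le⟩]
      simp only [a, b]
      rw [this, card_insert_of_notMem (by simp)]
    · refine congrArg card (filter_congr fun y hy => ⟨fun q => lt_of_le_of_ne q fun z => ?_, le_of_lt⟩)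
      exact hx (h.2.1 _ _ (odd y hy) z ▸ hy)
  have win : ∀ t : ℤ, (P.filter fun y => t ≤ ψ y ∧ ψ y ≤ t + 1).card ≤ 1 := by
    intro t
    refine card_le_one.2 fun x hx y hy => ?_
    rw [mem_filter] at hx hy
    have := odd x hx.1
    have := odd y hy.1
    exact h.2.1 x y (by omega) (by omega)
  have lt : ∀ x ∈ P, ∀ y, ψ x < ψ y → a x < a y := by
    intro x hx y q
    refine card_lt_card ⟨fun z hz => ?_, fun z => ?_⟩
    · rw [mem_filter] at hz ⊢
      exact ⟨hz.1, hz.2.trans q⟩
    · have := (mem_filter.1 (z (mem_filter.2 ⟨hx, q⟩))).2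
      omega
  have inj : ∀ x ∈ P, ∀ y ∈ P, a x = a y → x = y := by
    intro x hx y hy q
    rcases lt_trichotomy (ψ x) (ψ y) with z | z | z
    · have := lt x hx y z; omega
    · exact h.2.1 _ _ (odd x hx) z
    · have := lt y hy x z; omega
  have bd : ∀ x ∈ P, a x ∈ range (r + 1) := by
    intro x hx
    have := ab x
    rw [if_pos hx] at this
    have : b x ≤ P.card := card_filter_le _ _
    rw [mem_range]
    omega
  have surj := surj_on_of_inj_on_of_card_le (s := P) (t := range (r + 1)) (fun x _ => a x) bd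
    (fun x y hx hy q => inj x hx y hy q) (by simp [hc])
  have : ∀ k : Fin (r + 1), ∃ x ∈ P, a x = k := fun k => by
    obtain ⟨x, hx, q⟩ := surj k (mem_range.2 k.2)
    exact ⟨x, hx, q.symm⟩
  choose p p1 p2 using this
  have inP : ∀ x, ((a x : ℤ) + b x) % 2 = 1 → x ∈ P := by
    intro x q
    by_contra z
    have := ab x
    rw [if_neg z] at this
    omega
  refine ⟨fun x => a x + b x, p, ⟨?_, ?_, ?_⟩, ?_, ?_⟩
  · intro e x y he
    have q := h.1 e x y he
    have a1 : a x ≤ a y + 1 := by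
      refine le_trans (card_le_card ?_) ((card_union_le _ _).trans (Nat.add_le_add_left (win (ψ y)) _))
      intro z hz
      simp only [mem_filter, mem_union] at hz ⊢
      have := hz.2
      by_cases w : ψ z < ψ y
      exacts [Or.inl ⟨hz.1, w⟩, Or.inr ⟨hz.1, by omega, by omega⟩]
    have a2 : b x ≤ b y + 1 := by
      refine le_trans (card_le_card ?_)
        ((card_union_le _ _).trans (Nat.add_le_add_left (win (ψ y + 1)) _))
      intro z hz
      simp only [mem_filter, mem_union] at hz ⊢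
      have := hz.2
      by_cases w : ψ z ≤ ψ y
      exacts [Or.inl ⟨hz.1, w⟩, Or.inr ⟨hz.1, by omega, by omega⟩]
    simp only
    omega
  · intro x y q w
    simp only at q w
    have hx := inP x q
    have hy := inP y (w ▸ q)
    have := ab x
    have := ab y
    rw [if_pos hx] at *
    rw [if_pos hy] at *
    exact inj x hx y hy (by omega)
  · intro e f x y q w ox oy
    exact h.2.2 e f x y q w (odd x (inP x ox)) (odd y (inP y oy))
  · intro k
    have := ab (p k)
    rw [if_pos (p1 k)] at this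
    have := p2 k
    simp only
    omega
  · intro x q
    have hx := inP x q
    exact ⟨⟨a x, mem_range.1 (bd x hx)⟩, inj _ (p1 _) _ hx (p2 _)⟩

theorem pot_usp (F : MG) (φ : F.V → ℤ) (h : Pot F φ) (r : ℕ) (p : Fin (r + 1) → F.V)
    (hp : ∀ k, φ (p k) = 2 * k + 1) (e : Fin r → F.E)
    (he : ∀ i : Fin r, F.ends (e i) = s(p i.castSucc, p i.succ)) : IsUSP F r p e := by
  have up : ∀ r' v' e', IsPath F r' v' e' → ∀ (i d : ℕ) (hd : i + d < r' + 1),
      φ (v' ⟨i + d, hd⟩) ≤ φ (v' ⟨i, by omega⟩) + 2 * d := by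
    intro r' v' e' a i d
    induction d with
    | zero => intro hd; simp
    | succ d ih =>
      intro hd
      have := ih (by omega)
      have b := h.1 _ _ _ ((a.2 ⟨i + d, by omega⟩).trans Sym2.eq_swap)
      change φ (v' ⟨i + d + 1, hd⟩) - φ (v' ⟨i + d, by omega⟩) ≤ 2 at b
      change φ (v' ⟨i + d + 1, hd⟩) ≤ _
      push_cast
      omega
  have p0 := hp 0
  have pl := hp (Fin.last r)
  simp only [Fin.val_zero, Fin.val_last] at p0 pl
  refine ⟨⟨fun i j a => Fin.ext ?_, he⟩, ?_, ?_⟩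
  · have := hp i
    have := hp j
    rw [a] at *
    omega
  · intro r' v' e' a b c
    have := up r' v' e' a 0 r' (by omega)
    have e1 : (⟨0 + r', by omega⟩ : Fin (r' + 1)) = Fin.last r' := Fin.ext (by simp)
    rw [e1, c] at this
    change _ ≤ φ (v' 0) + _ at this
    rw [b] at this
    omega
  · intro v' e' a b c
    have hv : ∀ k, v' k = p k := by
      intro k
      have u1 := up r v' e' a 0 k (by omega)
      have u2 := up r v' e' a k (r - k) (by omega)
      have e1 : (⟨0 + k, by omega⟩ : Fin (r + 1)) = k := Fin.ext (by simp)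
      have e2 : (⟨k + (r - k), by omega⟩ : Fin (r + 1)) = Fin.last r := Fin.ext (by simp; omega)
      rw [e1] at u1
      rw [e2, c] at u2
      change _ ≤ φ (v' 0) + _ at u1
      change _ ≤ φ (v' k) + _ at u2
      rw [b] at u1
      have := hp k
      have := k.2
      exact (h.2.1 _ _ (by omega) (by omega)).symm
    funext i
    have := a.2 i
    rw [hv, hv] at this
    refine h.2.2 _ _ _ _ this (he i) ?_ ?_ <;> rw [hp] <;> omega

theorem build (G : MG) (i : ℕ) (hG : Good G i) (hi : i < Fintype.card G.V) :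
    ∃ (E' : Type) (_ : Fintype E') (ends' : E' → Sym2 G.V) (h : ∀ e, ¬ (ends' e).IsDiag),
      sp (addEdges G E' ends' h) = i := by
  classical
  obtain ⟨ψ, hψ, hc⟩ := hG
  obtain ⟨r, hr⟩ : ∃ r, Fintype.card G.V = r + 1 + i := ⟨Fintype.card G.V - i - 1, by omega⟩
  have hc' : r + 1 ≤ (univ.filter fun x => ψ x % 2 = 1).card := by
    have a := card_filter_add_card_filter_not (s := (univ : Finset G.V)) fun x => ψ x % 2 = 0
    have b : (univ.filter fun x => ¬ ψ x % 2 = 0) = univ.filter fun x => ψ x % 2 = 1 :=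
      filter_congr fun x _ => by omega
    rw [b, card_univ] at a
    omega
  obtain ⟨φ, p, h, hp, hq⟩ := norm G ψ hψ r hc'
  have pinj : Function.Injective p := fun i j a => Fin.ext (by
    have := hp i
    have := hp j
    rw [a] at *
    omega)
  let E' := {e : G.E // ∃ x ∈ G.ends e, φ x % 2 = 0} ⊕
    {k : Fin r // ¬ ∃ e, G.ends e = s(p k.castSucc, p k.succ)}
  let ends' : E' → Sym2 G.V :=
    Sum.elim (fun e => G.ends e.1) fun k => s(p k.1.castSucc, p k.1.succ)
  have ll : ∀ e, ¬ (ends' e).IsDiag := by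
    rintro (e | k)
    · exact G.loopless _
    · intro a
      have := congrArg Fin.val (pinj (Sym2.mk_isDiag_iff.1 a))
      simp at this
  refine ⟨E', inferInstance, ends', ll, ?_⟩
  have oddE : ∀ (e : G.E) x y, G.ends e = s(x, y) → φ x % 2 = 1 → φ y % 2 = 1 →
      ¬ ∃ x ∈ G.ends e, φ x % 2 = 0 := by
    rintro e x y a b c ⟨z, hz, d⟩
    rw [a, Sym2.mem_iff] at hz
    rcases hz with rfl | rfl <;> omega
  have hF : Pot (addEdges G E' ends' ll) φ := by
    refine ⟨?_, h.2.1, ?_⟩
    · rintro (e | e | k) x y a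
      · exact h.1 e x y a
      · exact h.1 e.1 x y a
      · have b1 := hp k.1.castSucc
        have b2 := hp k.1.succ
        simp only [Fin.val_castSucc, Fin.val_succ] at b1 b2
        rcases Sym2.eq_iff.1 a with ⟨rfl, rfl⟩ | ⟨rfl, rfl⟩ <;> push_cast at b2 <;> omega
    · rintro (e | e | k) (f | f | l) x y a b ox oy
      · rw [h.2.2 e f x y a b ox oy]
      · exact absurd f.2 (oddE _ x y b ox oy)
      · exact absurd ⟨e, a.trans b.symm⟩ l.2
      · exact absurd e.2 (oddE _ x y a ox oy)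
      · exact absurd e.2 (oddE _ x y a ox oy)
      · exact absurd e.2 (oddE _ x y a ox oy)
      · exact absurd ⟨f, b.trans a.symm⟩ k.2
      · exact absurd f.2 (oddE _ x y b ox oy)
      · have : k = l := by
          apply Subtype.ext
          apply Fin.ext
          rcases Sym2.eq_iff.1 (a.trans b.symm) with ⟨c, d⟩ | ⟨c, d⟩
          · simpa using congrArg Fin.val (pinj c)
          · have := congrArg Fin.val (pinj c)
            have := congrArg Fin.val (pinj d)
            simp at *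
            omega
        rw [this]
  have ex : ∀ k : Fin r, ∃ e : (addEdges G E' ends' ll).E,
      (addEdges G E' ends' ll).ends e = s(p k.castSucc, p k.succ) := by
    intro k
    by_cases a : ∃ e, G.ends e = s(p k.castSucc, p k.succ)
    · obtain ⟨e, a⟩ := a
      exact ⟨.inl e, a⟩
    · exact ⟨.inr (.inr ⟨k, a⟩), rfl⟩
  choose e he using ex
  have hu : usp (addEdges G E' ends' ll) = r + 1 := by
    refine IsGreatest.csSup_eq ⟨⟨r, p, e, pot_usp (addEdges G E' ends' ll) φ hF r p hp e he, rfl⟩, ?_⟩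
    rintro k ⟨r', v', e', ⟨a1, -, a3⟩, rfl⟩
    rcases Nat.eq_zero_or_pos r' with rfl | hr'
    · omega
    have tw : ∀ (l : Fin r') x, x ∈ (addEdges G E' ends' ll).ends (e' l) → φ x % 2 = 1 := by
      intro l x hx
      by_contra z
      have : ∃ f, f ≠ e' l ∧ (addEdges G E' ends' ll).ends f = (addEdges G E' ends' ll).ends (e' l) := by
        generalize e' l = f at hx
        rcases f with f | f | k
        · exact ⟨.inr (.inl ⟨f, x, hx, by omega⟩), by simp, rfl⟩
        · exact ⟨.inl f.1, by simp, rfl⟩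
        · exfalso
          rcases Sym2.mem_iff.1 hx with rfl | rfl <;> rw [hp] at z <;> omega
      obtain ⟨f, f1, f2⟩ := this
      have := a3 v' (Function.update e' l f) ⟨a1.1, fun m => ?_⟩ rfl rfl
      · exact f1 (by simpa using congrFun this l)
      · by_cases w : m = l
        · rw [w, Function.update_self, f2, a1.2]
        · rw [Function.update_of_ne w, a1.2]
    have allo : ∀ m, ∃ k, p k = v' m := by
      intro m
      apply hq
      induction m using Fin.cases with
      | zero => exact tw ⟨0, hr'⟩ _ (by rw [a1.2]; exact Sym2.mem_mk_left _ _)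
      | succ m => exact tw m _ (by rw [a1.2]; exact Sym2.mem_mk_right _ _)
    choose k hk using allo
    simpa using Fintype.card_le_of_injective k fun a b c => a1.1 (by rw [← hk, ← hk, c])
  rw [sp, hu]
  change Fintype.card G.V - (r + 1) = i
  omega

theorem result (G : MG) (i : ℕ) (h1 : sf G ≤ i) (h2 : i ≤ sp G) :
    ∃ (E' : Type) (_ : Fintype E') (ends' : E' → Sym2 G.V) (h : ∀ e, ¬ (ends' e).IsDiag),
      sp (addEdges G E' ends' h) = i := by
  obtain ⟨H, a, b⟩ : ∃ H, Minor G H ∧ sp H = sf G :=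
    Nat.sInf_mem (s := {s | ∃ H, Minor G H ∧ sp H = s}) ⟨_, G, .refl, rfl⟩
  obtain ⟨ψ, c, d⟩ := minor_good G H _ a (usp_good H)
  refine build G i ⟨ψ, c, by omega⟩ ?_
  obtain ⟨r, -, -, -, hr⟩ := usp_mem G
  have : 0 < Fintype.card G.V := Fintype.card_pos
  rw [sp, hr] at h2
  omega

end Pool.Agent.Results.MP_aba9fe_co.Inter
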